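import Mathlib

set_option autoImplicit false

namespace Pool.Agent.H.MP_8bc403_al

open FreeGroup hiding map_mul map_inv map_one

/-- letters -/
abbrev Le : Type := Fin 2 × Bool

/-- weight of two consecutive letters -/
def wt (x y : Le) : ℤ := if x.2 = y.2 then (y.1.val : ℤ) - x.1.val else 0

theorem wt_bd : ∀ x y, |wt x y| ≤ 1 := by decide
theorem wt_inv : ∀ x y : Le, wt (y.1, !y.2) (x.1, !x.2) = - wt x y := by decide
theorem wt_flip : ∀ x y : Le, wt (x.1, !x.2) (y.1, !y.2) = wt x y := by decide

/-- counting function -/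
def cnt : List Le → ℤ
  | [] => 0
  | [_] => 0
  | x :: y :: l => wt x y + cnt (y :: l)

/-- junction weight -/
def jn (p q : List Le) : ℤ :=
  match p.getLast?, q.head? with
  | some x, some y => wt x y
  | _, _ => 0

theorem jn_bd (p q : List Le) : |jn p q| ≤ 1 := by
  unfold jn
  split
  · exact wt_bd _ _
  · simp

theorem cnt_append (p q : List Le) : cnt (p ++ q) = cnt p + cnt q + jn p q := by
  induction p using cnt.induct with
  | case1 => simp [cnt, jn]
  | case2 x => cases q <;> simp [cnt, jn, add_comm]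
  | case3 x y l ih =>
    have : jn (x :: y :: l) q = jn (y :: l) q := by simp [jn, List.getLast?_cons_cons]
    rw [this]
    simp only [List.cons_append, cnt] at ih ⊢
    rw [ih]; ring

theorem cnt_invRev (p : List Le) : cnt (invRev p) = - cnt p := by
  induction p using cnt.induct with
  | case1 => simp [cnt]
  | case2 x => simp [cnt, invRev]
  | case3 x y l ih =>
    rw [invRev_cons, cnt_append, ih]
    have : jn (invRev (y :: l)) (invRev [x]) = - wt x y := by
      rw [← wt_inv]
      simp [jn, invRev]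
    rw [this]
    simp [cnt, invRev]

theorem cnt_flip (p : List Le) : cnt (p.map fun x => (x.1, !x.2)) = cnt p := by
  induction p using cnt.induct with
  | case1 => simp [cnt]
  | case2 x => simp [cnt]
  | case3 x y l ih =>
    simp only [List.map_cons, cnt] at ih ⊢
    rw [ih, wt_flip]

theorem split (p : List Le) : ∀ q : List Le, IsReduced p → IsReduced q →
    ∃ a c s, p = a ++ c ∧ q = invRev c ++ s ∧ IsReduced (a ++ s) := by
  induction p using List.reverseRecOn with
  | nil => exact fun q _ hq => ⟨[], [], q, rfl, rfl, hq⟩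
  | append_singleton p x ih =>
    intro q hp hq
    cases q with
    | nil => exact ⟨p ++ [x], [], [], by simp, rfl, by simpa using hp⟩
    | cons y q =>
      by_cases h : y = (x.1, !x.2)
      · obtain ⟨a, c, s, h1, h2, h3⟩ := ih q (List.IsChain.left_of_append hp)
          (List.IsChain.tail hq)
        refine ⟨a, c ++ [x], s, by rw [h1, List.append_assoc], ?_, h3⟩
        rw [invRev_append, h2, h]
        simp [invRev]
      · refine ⟨p ++ [x], [], y :: q, by simp, rfl, ?_⟩
        have : IsReduced ([x] ++ (y :: q)) := by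
          refine isReduced_cons_cons.2 ⟨fun e => ?_, hq⟩
          by_contra e2
          apply h
          obtain ⟨y1, y2⟩ := y
          obtain ⟨x1, x2⟩ := x
          simp only at e e2
          subst e
          cases x2 <;> cases y2 <;> simp_all
        exact hp.append_overlap this (by simp)

/-- the free group -/
abbrev G : Type := FreeGroup (Fin 2)

/-- the counting quasimorphism -/
def phi (g : G) : ℤ := cnt g.toWord

theorem phi_mul (g h : G) : |phi (g * h) - phi g - phi h| ≤ 3 := by
  obtain ⟨a, c, s, h1, h2, h3⟩ := split g.toWord h.toWord isReduced_toWord isReduced_toWord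
  have e : g * h = mk (a ++ s) := by
    rw [← mk_toWord (x := g), ← mk_toWord (x := h), h1, h2, ← mul_mk, ← mul_mk, ← mul_mk,
      ← inv_mk]
    group
  unfold phi
  rw [e, toWord_mk, h3.reduce_eq, h1, h2, cnt_append, cnt_append, cnt_append, cnt_invRev]
  have b1 := abs_le.1 (jn_bd a s)
  have b2 := abs_le.1 (jn_bd a c)
  have b3 := abs_le.1 (jn_bd (invRev c) s)
  rw [abs_le]; constructor <;> linarith [b1.1, b1.2, b2.1, b2.2, b3.1, b3.2]

theorem phi_inv (g : G) : phi g⁻¹ = - phi g := by
  unfold phi; rw [toWord_inv, cnt_invRev]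

/-- automorphism inverting the basis -/
def al : G →* G := lift fun i => (of i)⁻¹

theorem al_mk (p : List Le) : al (mk p) = mk (p.map fun x => (x.1, !x.2)) := by
  induction p with
  | nil => exact map_one al
  | cons x p ih =>
    have e : ∀ (y : Le) (l : List Le), mk (y :: l) = mk [y] * mk l := fun y l => by
      rw [mul_mk]; rfl
    rw [List.map_cons, e, e _ (List.map _ _), map_mul, ih]
    congr 1
    obtain ⟨i, b⟩ := x
    cases b
    · have : mk [(i, false)] = (of i)⁻¹ := rfl
      rw [this]; simp [al]; rfl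
    · have : mk [(i, true)] = of i := rfl
      rw [this]; simp [al]; rfl

theorem phi_al (g : G) : phi (al g) = phi g := by
  unfold phi
  rw [← cnt_flip g.toWord]
  conv_lhs => rw [← mk_toWord (x := g), al_mk, toWord_mk]
  congr 1
  apply IsReduced.reduce_eq
  have := isReduced_toWord (x := g)
  unfold FreeGroup.IsReduced at this ⊢
  rw [List.isChain_map]
  exact this.imp fun a b h e => by simp [h e]

theorem pal (w : List G) (hw : ∀ x ∈ w, al x = x⁻¹) : al w.prod = (w.reverse.prod)⁻¹ := by
  induction w with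
  | nil => simp
  | cons x w ih =>
    rw [List.prod_cons, map_mul, ih (fun y hy => hw y (List.mem_cons_of_mem _ hy)),
      hw x List.mem_cons_self]
    simp

theorem phi_prod (ps : List G) (h : ∀ p ∈ ps, phi p = 0) : |phi ps.prod| ≤ 3 * ps.length := by
  induction ps with
  | nil => simp [phi, cnt]
  | cons x ps ih =>
    have a1 := abs_le.1 (phi_mul x ps.prod)
    have a2 := abs_le.1 (ih (fun y hy => h y (List.mem_cons_of_mem _ hy)))
    have a3 := h x List.mem_cons_self
    rw [List.prod_cons, List.length_cons, abs_le]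
    push_cast
    constructor <;> linarith [a1.1, a1.2, a2.1, a2.2]

/-- powers of the commutator word -/
def big : ℕ → List Le
  | 0 => [(0, true)]
  | n + 1 => (0, true) :: (1, true) :: (0, false) :: (1, false) :: big n

theorem big_head (n : ℕ) : ∃ l, big n = (0, true) :: l := by cases n <;> exact ⟨_, rfl⟩

theorem big_red (n : ℕ) : IsReduced (big n) ∧ cnt (big n) = 2 * n := by
  induction n with
  | zero => exact ⟨IsReduced.singleton, rfl⟩
  | succ n ih =>
    obtain ⟨l, hl⟩ := big_head n
    unfold big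
    rw [hl] at ih ⊢
    refine ⟨?_, ?_⟩
    · simp only [isReduced_cons_cons]
      simp [ih.1]
    · simp only [cnt, ih.2]
      simp [wt]; ring

theorem infinite_width : ¬ (∃ N : ℕ, ∀ g : G, ∃ ps : List G, ps.length ≤ N ∧ ps.prod = g ∧
    ∀ p ∈ ps, ∃ w : List G, (∀ x ∈ w, x ∈ ({of 0, of 1} : Finset G) ∨
      x⁻¹ ∈ ({of 0, of 1} : Finset G)) ∧ w.reverse = w ∧ w.prod = p) := by
  rintro ⟨N, h⟩
  obtain ⟨ps, h1, h2, h3⟩ := h (mk (big (2 * N + 1)))
  have h4 := phi_prod ps (by
    intro p hp
    obtain ⟨w, a1, a2, a3⟩ := h3 p hp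
    have := pal w (by
      intro x hx
      have hb : ∀ y ∈ ({of 0, of 1} : Finset G), al y = y⁻¹ := by
        intro y hy
        simp only [Finset.mem_insert, Finset.mem_singleton] at hy
        rcases hy with rfl | rfl <;> simp [al]
      rcases a1 x hx with h | h
      · exact hb x h
      · have := hb _ h
        rw [map_inv] at this
        exact inv_injective this)
    rw [a2, a3] at this
    have e := phi_al p
    rw [this, phi_inv] at e
    omega)
  rw [h2] at h4
  unfold phi at h4
  rw [toWord_mk, (big_red _).1.reduce_eq, (big_red _).2, abs_le] at h4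
  have : (ps.length : ℤ) ≤ N := by exact_mod_cast h1
  push_cast at h4
  omega

section fin
variable {H : Type} [Group H] (X : Finset H)

/-- values of words whose reversal is trivial -/
def Q : Subgroup H where
  carrier := {g | ∃ w : List H, (∀ x ∈ w, x ∈ X ∨ x⁻¹ ∈ X) ∧ w.prod = g ∧ w.reverse.prod = 1}
  one_mem' := ⟨[], by simp, rfl, rfl⟩
  mul_mem' := by
    rintro _ _ ⟨u, h1, rfl, h2⟩ ⟨v, h3, rfl, h4⟩
    refine ⟨u ++ v, fun x hx => ?_, by simp, by simp [h2, h4]⟩
    rcases List.mem_append.1 hx with h | h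
    · exact h1 x h
    · exact h3 x h
  inv_mem' := by
    rintro _ ⟨u, h1, rfl, h2⟩
    refine ⟨(u.map fun x => x⁻¹).reverse, fun x hx => ?_, (List.prod_inv_reverse u).symm, ?_⟩
    · simp only [List.mem_reverse, List.mem_map] at hx
      obtain ⟨y, hy, rfl⟩ := hx
      rw [inv_inv]
      exact (h1 y hy).symm
    · have := List.prod_inv_reverse u.reverse
      rw [h2, inv_one, List.map_reverse] at this
      exact this.symm

theorem Q_conj {x g : H} (hx : x ∈ X ∨ x⁻¹ ∈ X) (hg : g ∈ Q X) : x * g * x⁻¹ ∈ Q X := by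
  obtain ⟨u, h1, rfl, h2⟩ := hg
  refine ⟨x :: u ++ [x⁻¹], fun y hy => ?_, by simp [mul_assoc], by simp [h2]⟩
  simp only [List.cons_append, List.mem_cons, List.mem_append, List.not_mem_nil, or_false] at hy
  rcases hy with rfl | h | rfl
  · exact hx
  · exact h1 y h
  · rw [inv_inv]; exact hx.symm

theorem Q_normal (hX : Subgroup.closure (X : Set H) = ⊤) : (Q X).Normal := by
  constructor
  intro n hn g
  have hg : g ∈ Subgroup.closure (X : Set H) := hX ▸ Subgroup.mem_top g
  induction hg using Subgroup.closure_induction_left with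
  | one => simpa using hn
  | mul_left x hx y _ ih =>
    have := Q_conj X (Or.inl hx) ih
    convert this using 1
    group
  | inv_mul_cancel x hx y _ ih =>
    have := Q_conj X (x := x⁻¹) (Or.inr (by simpa using hx)) ih
    convert this using 1
    group

theorem pow_pal {x : H} (hx : x ∈ X) (m : ℤ) :
    ∃ w : List H, (∀ y ∈ w, y ∈ X ∨ y⁻¹ ∈ X) ∧ w.reverse = w ∧ w.prod = x ^ m := by
  obtain ⟨n, rfl | rfl⟩ := m.eq_nat_or_neg
  · exact ⟨List.replicate n x, fun y hy => by rw [List.eq_of_mem_replicate hy]; exact Or.inl hx,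
      by simp, by simp⟩
  · exact ⟨List.replicate n x⁻¹, fun y hy => by
      rw [List.eq_of_mem_replicate hy, inv_inv]; exact Or.inr hx, by simp, by simp⟩

end fin

theorem gen2 : Subgroup.closure ((({of 0, of 1} : Finset G)) : Set G) = ⊤ := by
  rw [eq_top_iff, ← closure_range_of]
  apply Subgroup.closure_mono
  rintro _ ⟨i, rfl⟩
  fin_cases i <;> simp

theorem gen3 : Subgroup.closure ((({of 0, of 1, of 0 * of 1} : Finset G)) : Set G) = ⊤ := by
  rw [eq_top_iff, ← gen2]
  apply Subgroup.closure_mono
  intro x hx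
  simp only [Finset.coe_insert, Finset.coe_singleton, Set.mem_insert_iff,
    Set.mem_singleton_iff] at hx ⊢
  tauto

theorem finite_width : ∃ N : ℕ, ∀ g : G, ∃ ps : List G, ps.length ≤ N ∧ ps.prod = g ∧
    ∀ p ∈ ps, ∃ w : List G, (∀ x ∈ w, x ∈ ({of 0, of 1, of 0 * of 1} : Finset G) ∨
      x⁻¹ ∈ ({of 0, of 1, of 0 * of 1} : Finset G)) ∧ w.reverse = w ∧ w.prod = p := by
  have hN := Q_normal _ gen3
  set X : Finset G := {of 0, of 1, of 0 * of 1} with hX
  have hc : Commute (QuotientGroup.mk' (Q X) (of 0)) (QuotientGroup.mk' (Q X) (of 1)) := by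
    show _ = _
    rw [← map_mul, ← map_mul]
    apply QuotientGroup.eq.2
    refine ⟨[(of 0 * of 1)⁻¹, of 1, of 0], ?_, by simp [mul_assoc], by simp [mul_assoc]⟩
    simp [hX]
  have key : ∀ g : G, ∃ m n : ℤ, QuotientGroup.mk' (Q X) g =
      QuotientGroup.mk' (Q X) (of 0) ^ m * QuotientGroup.mk' (Q X) (of 1) ^ n := by
    intro g
    induction g using FreeGroup.induction_on with
    | C1 => exact ⟨0, 0, by simp⟩
    | of i =>
      fin_cases i
      · exact ⟨1, 0, by simp⟩
      · exact ⟨0, 1, by simp⟩
    | inv_of i _ =>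
      fin_cases i
      · exact ⟨-1, 0, by simp⟩
      · exact ⟨0, -1, by simp⟩
    | mul x y hx hy =>
      obtain ⟨m, n, hx⟩ := hx
      obtain ⟨m', n', hy⟩ := hy
      refine ⟨m + m', n + n', ?_⟩
      rw [map_mul, hx, hy, zpow_add, zpow_add, mul_assoc, mul_assoc, ← mul_assoc (_ ^ n),
        ← (hc.zpow_zpow m' n).eq, mul_assoc]
  refine ⟨3, fun g => ?_⟩
  obtain ⟨m, n, h⟩ := key g
  rw [← map_zpow, ← map_zpow, ← map_mul] at h
  obtain ⟨w, h1, h2, h3⟩ := QuotientGroup.eq.1 h.symm
  refine ⟨[of 0 ^ m, of 1 ^ n, (of 0 ^ m * of 1 ^ n)⁻¹ * g], by simp, by simp [mul_assoc], ?_⟩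
  intro p hp
  simp only [List.mem_cons, List.not_mem_nil, or_false] at hp
  rcases hp with rfl | rfl | rfl
  · exact pow_pal X (by simp [hX]) m
  · exact pow_pal X (by simp [hX]) n
  · refine ⟨w ++ w.reverse, fun x hx => h1 x (by simpa using hx), by simp, ?_⟩
    rw [List.prod_append, h2, h3, mul_one]

end Pool.Agent.H.MP_8bc403_al
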